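import Pool.Agent.W_MP_790ce2_lc.Final

set_option autoImplicit false

/-!
# MP_790ce2_lc, Q1 and Q2 : `ℵ_{ω_ω}` may carry a uniform ultrafilter while `ℵ_ω` carries none

If there is a strongly compact cardinal there is a countable well-founded model `(M, E)` of ZF in which every successor
cardinal is regular, `c = ℵ_{ω_ω}` carries a uniform ultrafilter and `a = ℵ_ω` (`= ω_ω`) carries none. Both
cardinals are greater than `ω` and have cofinality `ω` there (so they are singular of equal cofinality), hence the model also gives a negative answer to
Q2. The notions are defined in `Pool/Agent/W_MP_790ce2_lc/Defs.lean`.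

Proof: let `κ` be strongly compact, `2^ℵ₀ = ℵ_γ`, `θ = ω_(γ+ω)`. The model is a symmetric extension by the product of the
countable partial functions from `ω × θ` to `2` and of the partial functions of size `≤ θ` collapsing all ordinals `< κ`
to `θ⁺`; supports are `n × θ` (`n < ω`) and `β × θ⁺` (`β < κ`). The infinite cardinals of the model are
`ω, ω₁, ω_(γ+1), ω_(γ+2), …, θ, θ⁺, κ, κ⁺, …`, so `ℵ_ω = θ` and `ℵ_{ω_ω} = ω_(κ+θ)`.
An ultrafilter on `θ` contains a countable set (flip one of the generic subsets of `θ` outside of the domain of a condition).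
The sum over a nonprincipal ultrafilter on `ω` of `κ`-complete uniform ultrafilters on cofinally many regular cardinals below
`ω_(κ+θ)` generates a uniform ultrafilter in the model.
-/

universe u

namespace Pool.Agent.Results.MP_790ce2_lc.UniformUltrafilterGap

open ZFM in
theorem result (κ : Cardinal.{u}) (hκ : IsStronglyCompact κ) :
    ∃ (M : Type) (E : M → M → Prop), Countable M ∧ WellFounded E ∧ IsZF E ∧ SuccReg E ∧
      ∃ w a c, IsOmega E w ∧ IsAleph E w a ∧ IsAleph E a c ∧ E w a ∧ E a c ∧ IsCofOmega E a ∧ IsCofOmega E c ∧
        CarriesUniform E c ∧ ¬ CarriesUniform E a :=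
  SYM.main κ hκ

end Pool.Agent.Results.MP_790ce2_lc.UniformUltrafilterGap
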